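import Mathlib

/-!
# Countable Borel equivalence relations with a compact realization and none on Cantor space

Let `E` be a countable Borel equivalence relation on an uncountable standard Borel space such that the
set of the points whose class has more than one element is countable and nonempty. Then `E` is
realized by a continuous action of a countable group on a compact metrizable space, but not by a
continuous action of a countable group on Cantor space.
-/

open Set Topology Function

namespace Pool.Agent.Results.MP_04fd10_lc.CountableNontrivialPart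

/-- Countable Borel equivalence relation. -/
def IsCBER {X : Type} [MeasurableSpace X] (E : X → X → Prop) : Prop :=
  Equivalence E ∧ MeasurableSet {p : X × X | E p.1 p.2} ∧ ∀ x, {y | E x y}.Countable

/-- `E` is Borel isomorphic to the orbit equivalence relation of a continuous action of a countable
group on the topological space `K`. -/
def RealizedOn {X : Type} [MeasurableSpace X] (E : X → X → Prop)
    (K : Type) [TopologicalSpace K] : Prop :=
  ∃ (Γ : Type) (_ : Group Γ) (_ : Countable Γ) (_ : MulAction Γ K),
    (∀ γ : Γ, Continuous fun k : K => γ • k) ∧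
    ∃ f : X → K, Bijective f ∧ (@Measurable X K _ (borel K) f) ∧
      ∀ x y, E x y ↔ ∃ γ : Γ, γ • f x = f y

/-- The set of the points whose class is not a singleton. -/
def nontrivialPart {X : Type} (E : X → X → Prop) : Set X := {x | ∃ y, E x y ∧ y ≠ x}

/-! ### the compact space: Cantor space with a discrete countable set converging to one point -/

section Compact

variable {X : Type} (D : Set X)

def KSet : Set ((ℕ → Bool) × (D → Bool)) :=
  {p | (∀ a b, p.2 a = true → p.2 b = true → a = b) ∧ (∀ a n, p.2 a = true → p.1 n = false)}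

theorem isClosed_KSet : IsClosed (KSet D) := by
  have h1 : ∀ a : D, Continuous (fun p : (ℕ → Bool) × (D → Bool) => p.2 a) :=
    fun a => (continuous_apply a).comp continuous_snd
  have h2 : ∀ n : ℕ, Continuous (fun p : (ℕ → Bool) × (D → Bool) => p.1 n) :=
    fun n => (continuous_apply n).comp continuous_fst
  have e : KSet D = (⋂ a : D, ⋂ b : D, {p | p.2 a = true → p.2 b = true → a = b}) ∩
      (⋂ a : D, ⋂ n : ℕ, {p | p.2 a = true → p.1 n = false}) := by
    ext p
    simp only [KSet, mem_ofPred_eq, mem_inter_iff, mem_iInter]
  rw [e]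
  refine IsClosed.inter ?_ ?_
  · refine isClosed_iInter fun a => isClosed_iInter fun b => ?_
    exact (isClosed_discrete {q : Bool × Bool | q.1 = true → q.2 = true → a = b}).preimage
      ((h1 a).prodMk (h1 b))
  · refine isClosed_iInter fun a => isClosed_iInter fun n => ?_
    exact (isClosed_discrete {q : Bool × Bool | q.1 = true → q.2 = false}).preimage
      ((h1 a).prodMk (h2 n))

/-- point mass -/
noncomputable def delta (d : D) : D → Bool := fun a => by classical exact decide (a = d)

theorem delta_eq_true (d a : D) : delta D d a = true ↔ a = d := by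
  simp [delta]

/-- action of a permutation of `D` -/
def act (σ : Equiv.Perm D) (k : KSet D) : KSet D :=
  ⟨(k.1.1, fun a => k.1.2 (σ⁻¹ a)), by
    refine ⟨?_, ?_⟩
    · intro a b ha hb
      exact (σ⁻¹).injective (k.2.1 _ _ ha hb)
    · intro a n ha
      exact k.2.2 _ n ha⟩

theorem continuous_act (σ : Equiv.Perm D) : Continuous (act D σ) := by
  refine Continuous.subtype_mk ?_ _
  refine (continuous_fst.comp continuous_subtype_val).prodMk (continuous_pi fun a => ?_)
  exact (continuous_apply _).comp (continuous_snd.comp continuous_subtype_val)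

end Compact

theorem exists_compact {X : Type} [MeasurableSpace X] [StandardBorelSpace X] (E : X → X → Prop)
    (hX : ¬ Countable X) (hE : IsCBER E) (hD : (nontrivialPart E).Countable) :
    ∃ (K : Type) (_ : TopologicalSpace K), CompactSpace K ∧ TopologicalSpace.MetrizableSpace K ∧
      RealizedOn E K := by
  classical
  obtain ⟨hEq, _, _⟩ := hE
  set D : Set X := nontrivialPart E with hDdef
  have hDm : MeasurableSet D := hD.measurableSet
  have : Countable D := hD.to_subtype
  have hS : ¬ Countable (Dᶜ : Set X) := by
    intro h
    apply hX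
    have h1 : (Dᶜ : Set X).Countable := h
    have h2 : (univ : Set X).Countable := by
      rw [← union_compl_self D]
      exact hD.union h1
    exact countable_univ_iff.1 h2
  have : StandardBorelSpace (Dᶜ : Set X) := hDm.compl.standardBorel
  let e : (Dᶜ : Set X) ≃ᵐ (ℕ → Bool) := PolishSpace.measurableEquivNatBoolOfNotCountable hS
  have : CompactSpace (KSet D) := isCompact_iff_compactSpace.1 (isClosed_KSet D).isCompact
  refine ⟨KSet D, inferInstance, inferInstance, inferInstance, ?_⟩
  -- the group
  let G : Type := FreeGroup {p : D × D // E p.1 p.2}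
  let hom : G →* Equiv.Perm D := FreeGroup.lift (fun p => Equiv.swap p.1.1 p.1.2)
  have hhom : ∀ (γ : G) (d : D), E d (hom γ d) := by
    intro γ
    induction γ using FreeGroup.induction_on with
    | C1 => intro d; simpa using hEq.refl _
    | of p =>
      intro d
      have h1 : hom (FreeGroup.of p) = Equiv.swap p.1.1 p.1.2 := FreeGroup.lift_apply_of
      rw [h1]
      by_cases h2 : d = p.1.1
      · subst h2
        rw [Equiv.swap_apply_left]
        exact p.2
      · by_cases h3 : d = p.1.2
        · subst h3
          rw [Equiv.swap_apply_right]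
          exact hEq.symm p.2
        · rw [Equiv.swap_apply_of_ne_of_ne h2 h3]
          exact hEq.refl _
    | inv_of p ih =>
      intro d
      have h1 := ih (hom (FreeGroup.of p)⁻¹ d)
      have h2 : hom (FreeGroup.of p) (hom (FreeGroup.of p)⁻¹ d) = d := by
        rw [map_inv]
        exact (hom (FreeGroup.of p)).apply_symm_apply d
      rw [h2] at h1
      exact hEq.symm h1
    | mul a b iha ihb =>
      intro d
      rw [map_mul, Equiv.Perm.mul_apply]
      exact hEq.trans (ihb d) (iha _)
  let actI : MulAction G (KSet D) :=
    { smul := fun γ k => act D (hom γ) k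
      one_smul := by
        intro k
        change act D (hom 1) k = k
        rw [map_one]
        rfl
      mul_smul := by
        intro a b k
        change act D (hom (a * b)) k = act D (hom a) (act D (hom b) k)
        rw [map_mul]
        rfl }
  refine ⟨G, inferInstance, inferInstance, actI, fun γ => continuous_act D (hom γ), ?_⟩
  -- the Borel bijection
  let F : D ⊕ (Dᶜ : Set X) → KSet D := Sum.elim
    (fun d => ⟨(fun _ => false, delta D d), by
      refine ⟨?_, ?_⟩
      · intro a b ha hb
        rw [delta_eq_true] at ha hb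
        rw [ha, hb]
      · intro a n _
        rfl⟩)
    (fun s => ⟨(e s, fun _ => false), by
      refine ⟨?_, ?_⟩
      · intro a b ha
        simp at ha
      · intro a n ha
        simp at ha⟩)
  have hFm : Measurable F := by
    refine Measurable.sumElim (Measurable.of_discrete) ?_
    refine Measurable.subtype_mk ?_
    exact e.measurable.prodMk measurable_const
  let e1 : D ⊕ (Dᶜ : Set X) ≃ᵐ X := MeasurableEquiv.sumCompl hDm
  let f : X → KSet D := fun x => F (e1.symm x)
  have hfD : ∀ (x : X) (hx : x ∈ D), f x = F (Sum.inl ⟨x, hx⟩) := by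
    intro x hx
    have : e1.symm x = Sum.inl ⟨x, hx⟩ := by
      rw [MeasurableEquiv.symm_apply_eq]
      rfl
    simp only [f, this]
  have hfS : ∀ (x : X) (hx : x ∈ Dᶜ), f x = F (Sum.inr ⟨x, hx⟩) := by
    intro x hx
    have : e1.symm x = Sum.inr ⟨x, hx⟩ := by
      rw [MeasurableEquiv.symm_apply_eq]
      rfl
    simp only [f, this]
  have hFinj : Injective F := by
    rintro (a | a) (b | b) hab
    · have h1 : delta D a = delta D b := congrArg (fun k : KSet D => k.1.2) hab
      have h2 : delta D b a = true := by
        rw [← h1, delta_eq_true]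
      rw [delta_eq_true] at h2
      rw [h2]
    · have h1 : delta D a = fun _ => false := congrArg (fun k : KSet D => k.1.2) hab
      have h2 : delta D a a = true := by rw [delta_eq_true]
      rw [h1] at h2
      simp at h2
    · have h1 : (fun _ => false) = delta D b := congrArg (fun k : KSet D => k.1.2) hab
      have h2 : delta D b b = true := by rw [delta_eq_true]
      rw [← h1] at h2
      simp at h2
    · have h1 : e a = e b := congrArg (fun k : KSet D => k.1.1) hab
      rw [e.injective h1]
  have hFsurj : Surjective F := by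
    rintro ⟨⟨w, z⟩, h1, h2⟩
    by_cases hz : ∃ a, z a = true
    · obtain ⟨a, ha⟩ := hz
      refine ⟨Sum.inl a, ?_⟩
      apply Subtype.ext
      refine Prod.ext ?_ ?_
      · funext n
        exact (h2 a n ha).symm
      · funext b
        change delta D a b = z b
        by_cases hb : b = a
        · subst hb
          rw [ha, delta_eq_true]
        · have h3 : z b = false := by
            by_contra hcon
            exact hb (h1 b a (by simpa using hcon) ha)
          rw [h3]
          have h4 : ¬ (delta D a b = true) := by rwa [delta_eq_true]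
          simpa using h4
    · push Not at hz
      refine ⟨Sum.inr (e.symm w), ?_⟩
      apply Subtype.ext
      refine Prod.ext ?_ ?_
      · exact e.apply_symm_apply w
      · funext b
        have := hz b
        simp only [ne_eq, Bool.not_eq_true] at this
        exact this.symm
  have hfm : Measurable f := hFm.comp e1.symm.measurable
  have hfinj : Injective f := hFinj.comp e1.symm.injective
  refine ⟨f, ⟨hfinj, hFsurj.comp e1.symm.surjective⟩, ?_, ?_⟩
  · have : (borel (KSet D)) = (inferInstance : MeasurableSpace (KSet D)) :=
      (BorelSpace.measurable_eq).symm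
    rw [this]
    exact hfm
  · intro x y
    constructor
    · intro hxy
      by_cases hne : y = x
      · subst hne
        exact ⟨1, one_smul _ _⟩
      · have hx : x ∈ D := ⟨y, hxy, hne⟩
        have hy : y ∈ D := ⟨x, hEq.symm hxy, fun h => hne h.symm⟩
        refine ⟨FreeGroup.of ⟨(⟨x, hx⟩, ⟨y, hy⟩), hxy⟩, ?_⟩
        rw [hfD x hx, hfD y hy]
        change act D (hom (FreeGroup.of ⟨(⟨x, hx⟩, ⟨y, hy⟩), hxy⟩)) _ = _
        have h1 : hom (FreeGroup.of ⟨(⟨x, hx⟩, ⟨y, hy⟩), hxy⟩) = Equiv.swap ⟨x, hx⟩ ⟨y, hy⟩ :=
          FreeGroup.lift_apply_of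
        rw [h1]
        apply Subtype.ext
        refine Prod.ext rfl ?_
        funext a
        change delta D ⟨x, hx⟩ ((Equiv.swap (⟨x, hx⟩ : D) ⟨y, hy⟩)⁻¹ a) = delta D ⟨y, hy⟩ a
        rw [Equiv.swap_inv]
        rw [Bool.eq_iff_iff, delta_eq_true, delta_eq_true]
        constructor
        · intro h
          have h2 := congrArg (Equiv.swap (⟨x, hx⟩ : D) ⟨y, hy⟩) h
          rwa [Equiv.swap_apply_self, Equiv.swap_apply_left] at h2
        · rintro rfl
          rw [Equiv.swap_apply_right]
    · rintro ⟨γ, hγ⟩
      change act D (hom γ) (f x) = f y at hγ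
      by_cases hx : x ∈ D
      · have h1 : act D (hom γ) (f x) = f (hom γ ⟨x, hx⟩ : D) := by
          rw [hfD x hx, hfD _ (hom γ ⟨x, hx⟩).2]
          apply Subtype.ext
          refine Prod.ext rfl ?_
          funext a
          change delta D ⟨x, hx⟩ ((hom γ)⁻¹ a) = delta D (hom γ ⟨x, hx⟩) a
          rw [Bool.eq_iff_iff, delta_eq_true, delta_eq_true]
          constructor
          · intro h
            rw [← h]
            exact ((hom γ).apply_symm_apply a).symm
          · rintro rfl
            exact (hom γ).symm_apply_apply _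
        rw [h1] at hγ
        rw [← hfinj hγ]
        exact hhom γ ⟨x, hx⟩
      · have h1 : act D (hom γ) (f x) = f x := by
          rw [hfS x hx]
          rfl
        rw [h1] at hγ
        rw [← hfinj hγ]
        exact hEq.refl _

/-- nonempty open subsets of Cantor space are uncountable -/
theorem open_uncountable (U : Set (ℕ → Bool)) (hU : IsOpen U) (hne : U.Nonempty) :
    ¬ U.Countable := by
  obtain ⟨z, hz⟩ := hne
  have h1 : ∃ N : ℕ, ∀ w : ℕ → Bool, (∀ i < N, w i = z i) → w ∈ U := by
    have h2 := isOpen_pi_iff.1 hU z hz
    obtain ⟨I, u, hu, hsub⟩ := h2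
    refine ⟨I.sup id + 1, fun w hw => hsub ?_⟩
    intro i hi
    have h3 : w i = z i := hw i (Nat.lt_succ_of_le (Finset.le_sup (f := id) hi))
    rw [h3]
    exact (hu i hi).2
  obtain ⟨N, hN⟩ := h1
  intro hc
  let g : (ℕ → Bool) → (ℕ → Bool) := fun w i => if i < N then z i else w (i - N)
  have hg : Injective g := by
    intro a b hab
    funext i
    have h3 := congrFun hab (i + N)
    simpa [g] using h3
  have h4 : (g ⁻¹' U) = univ := by
    ext w
    simp only [mem_preimage, mem_univ, iff_true]
    apply hN
    intro i hi
    simp [g, hi]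
  have h5 : (g ⁻¹' U).Countable := hc.preimage_of_injOn hg.injOn
  rw [h4] at h5
  have h6 : Countable (ℕ → Bool) := countable_univ_iff.1 h5
  obtain ⟨enum, henum⟩ := exists_surjective_nat (ℕ → Bool)
  obtain ⟨n, hn⟩ := henum (fun k => !(enum k k))
  have h7 := congrFun hn n
  simp at h7

theorem not_cantor {X : Type} [MeasurableSpace X] (E : X → X → Prop)
    (hD : (nontrivialPart E).Countable) (hne : (nontrivialPart E).Nonempty) :
    ¬ RealizedOn E (ℕ → Bool) := by
  rintro ⟨Γ, _, _, _, hcont, f, hf, _, hE⟩
  let U : Set (ℕ → Bool) := ⋃ γ : Γ, {z | γ • z ≠ z}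
  have hUo : IsOpen U := isOpen_iUnion fun γ =>
    (isClosed_eq (hcont γ) continuous_id).isOpen_compl
  have hUeq : U = f '' (nontrivialPart E) := by
    ext z
    simp only [U, mem_iUnion, mem_ofPred_eq, mem_image, nontrivialPart]
    constructor
    · rintro ⟨γ, hγ⟩
      obtain ⟨x, rfl⟩ := hf.2 z
      obtain ⟨y, hy⟩ := hf.2 (γ • f x)
      refine ⟨x, ⟨y, (hE x y).2 ⟨γ, hy.symm⟩, ?_⟩, rfl⟩
      rintro rfl
      exact hγ hy.symm
    · rintro ⟨x, ⟨y, hxy, hyx⟩, rfl⟩
      obtain ⟨γ, hγ⟩ := (hE x y).1 hxy
      refine ⟨γ, ?_⟩
      rw [hγ]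
      exact fun h => hyx (hf.1 h)
  refine open_uncountable U hUo ?_ ?_
  · rw [hUeq]
    exact hne.image f
  · rw [hUeq]
    exact hD.image f

/-- **Compact action realizations need not be replaceable by realizations on Cantor space.**
Let `E` be a countable Borel equivalence relation on an uncountable standard Borel space such that the
set of the points with a non-singleton class is countable and nonempty. Then `E` has a realization by
a continuous action of a countable group on a compact metrizable space, but none on `2^ℕ`. Such
relations exist, also with an infinite class. -/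
theorem result :
    (∀ (X : Type) [MeasurableSpace X] [StandardBorelSpace X] (E : X → X → Prop),
      ¬ Countable X → IsCBER E → (nontrivialPart E).Countable → (nontrivialPart E).Nonempty →
        (∃ (K : Type) (_ : TopologicalSpace K), CompactSpace K ∧
          TopologicalSpace.MetrizableSpace K ∧ RealizedOn E K) ∧
        ¬ RealizedOn E (ℕ → Bool)) ∧
    (∃ E : ℝ → ℝ → Prop, IsCBER E ∧ (nontrivialPart E).Countable ∧
      ∃ x, {y | E x y}.Infinite) := by
  refine ⟨fun X _ _ E hX hE hD hne => ⟨exists_compact E hX hE hD, not_cantor E hD hne⟩, ?_⟩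
  have hc : (range ((↑) : ℤ → ℝ)).Countable := countable_range _
  refine ⟨fun x y => x = y ∨ (x ∈ range ((↑) : ℤ → ℝ) ∧ y ∈ range ((↑) : ℤ → ℝ)), ⟨?_, ?_, ?_⟩,
    ?_, ?_⟩
  · refine ⟨fun x => Or.inl rfl, ?_, ?_⟩
    · rintro x y (h | h)
      · exact Or.inl h.symm
      · exact Or.inr ⟨h.2, h.1⟩
    · rintro x y z (rfl | h) (rfl | h')
      · exact Or.inl rfl
      · exact Or.inr h'
      · exact Or.inr h
      · exact Or.inr ⟨h.1, h'.2⟩
  · have : {p : ℝ × ℝ | p.1 = p.2 ∨ (p.1 ∈ range ((↑) : ℤ → ℝ) ∧ p.2 ∈ range ((↑) : ℤ → ℝ))} =
        {p : ℝ × ℝ | p.1 = p.2} ∪ (range ((↑) : ℤ → ℝ)) ×ˢ (range ((↑) : ℤ → ℝ)) := by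
      ext p
      simp only [mem_ofPred_eq, mem_union, mem_prod]
    rw [this]
    exact (measurableSet_eq_fun measurable_fst measurable_snd).union
      (hc.measurableSet.prod hc.measurableSet)
  · intro x
    refine Countable.mono (s₂ := {x} ∪ range ((↑) : ℤ → ℝ)) ?_ ((countable_singleton x).union hc)
    rintro y (rfl | h)
    · exact Or.inl rfl
    · exact Or.inr h.2
  · refine Countable.mono ?_ hc
    rintro x ⟨y, (h | h), hne⟩
    · exact absurd h.symm hne
    · exact h.1
  · refine ⟨0, ?_⟩
    refine Set.Infinite.mono (s := range ((↑) : ℤ → ℝ)) ?_ (infinite_range_of_injective Int.cast_injective)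
    rintro y hy
    exact Or.inr ⟨⟨0, by simp⟩, hy⟩

end Pool.Agent.Results.MP_04fd10_lc.CountableNontrivialPart
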